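import Pool.Agent.K4H40.Fin1

/-!
# MP_79d3d7_an, Q1: the law of large permanents holds for all ergodic actions of `ℕ²`
-/

set_option autoImplicit false

namespace Pool.Agent.Results.MP_79d3d7_an.LargePermanents

open Filter Topology MeasureTheory
open Pool.Agent.K4H40.LLP

/-- **Positive answer to Q1.** Let `S = T^(1,0)` and `T = T^(0,1)` be commuting measure preserving
maps of a probability space such that all sets invariant under both have measure `0` or `1`, and
let `f` be measurable with `log f` in `L^∞`. Then for almost all `ω` the permanental means of the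
matrices `f (T^(i,j) ω)`, `0 ≤ i, j < n`, converge to the scaling mean of `f` with respect to the
σ-algebras of the `T^(1,0)`-invariant and of the `T^(0,1)`-invariant sets. -/
theorem result {Ω : Type*} [MeasurableSpace Ω] (P : Measure Ω) [IsProbabilityMeasure P]
    (S T : Ω → Ω) (hS : MeasurePreserving S P P) (hT : MeasurePreserving T P P)
    (hST : ∀ ω, S (T ω) = T (S ω))
    (herg : ∀ s, MeasurableSet s → S ⁻¹' s = s → T ⁻¹' s = s → P s = 0 ∨ P s = 1)
    (f : Ω → ℝ) (hf : Measurable f) (hb : ∃ B, ∀ᵐ ω ∂P, 0 < f ω ∧ |Real.log (f ω)| ≤ B) :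
    ∀ᵐ ω ∂P, Tendsto (fun n : ℕ => ENNReal.ofReal (pmean (sample S T f n ω))) atTop
      (𝓝 (smean (MeasurableSpace.invariants S) (MeasurableSpace.invariants T) P f)) :=
  main hS hT hST herg hf hb

end Pool.Agent.Results.MP_79d3d7_an.LargePermanents
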